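import Mathlib.Data.Nat.Log
import Mathlib.Data.Real.Basic
import Mathlib.Data.Set.Card
import Pool.Agent.Helper51.ZP.Defs

/-!
# Randomized algorithms whose outcome is witnessed by few coins

Turing machines are Mathlib's multi-stack machines; `PolyTimeComputable` is in
`Pool.Agent.Helper81.CxDefs`, the coding `encOf` of structured data (with numbers in unary) is in
`Pool.Agent.Helper81.CxData`, and `InP` is in `Pool.Agent.Helper51.ZP.Defs`.
-/

namespace Pool.Agent.Helper78.CG

open Pool.Agent.Helper81.CC
open scoped Classical

/-- Each coin string `y` in the set `B` has a witness of size `≤ w`: there are at most `w` coins such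
that all coin strings which agree with `y` on these coins are in `B`. -/
def Witnessed {n : ℕ} (w : ℕ) (B : Set (Fin n → Bool)) : Prop :=
  ∀ y ∈ B, ∃ Q : Finset (Fin n), Q.card ≤ w ∧ ∀ y' : Fin n → Bool, (∀ v ∈ Q, y' v = y v) → y' ∈ B

/-- The set `A` of coin strings is certified by `r` sets `B 0, ..., B (r - 1)`, whose elements have
witnesses of size `≤ w`: if `y` is in `A`, and if `y'` is in all those `B j` which contain `y`, then
`y'` is in `A`. (That is, `A` is a union of intersections of some of the sets `B j`.) -/
def Certified {n : ℕ} (w r : ℕ) (A : Set (Fin n → Bool)) : Prop :=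
  ∃ B : Fin r → Set (Fin n → Bool), (∀ j, Witnessed w (B j)) ∧
    ∀ y ∈ A, ∀ y', (∀ j, y ∈ B j → y' ∈ B j) → y' ∈ A

/-- The probability of `A` for uniformly random coins. -/
noncomputable def prob {n : ℕ} (A : Set (Fin n → Bool)) : ℝ := (Nat.card A : ℝ) / 2 ^ n

/-- The first `n` bits of a string, as a coin string. -/
def coins (n : ℕ) (s : List Bool) : Fin n → Bool := fun v => s.getD v false

/-- The fraction of the strings in the list `G` whose first `n` bits are in `A`. -/
noncomputable def frac {n : ℕ} (G : List (List Bool)) (A : Set (Fin n → Bool)) : ℝ :=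
  ((G.filter fun s => decide (coins n s ∈ A)).length : ℝ) / G.length

/-- There is a deterministic polynomial-time pseudorandom generator: a list `G N` of strings of
length `N`, computable in time polynomial in `N`, in which every set `A` of coin strings of any
length `n ≤ N` has at least the frequency `prob A - 1 / (log₂ N + 2) ^ c`, if `A` is certified by at
most `(log₂ N + 2) ^ (e / (e + 1))` sets whose elements have witnesses of size `c (log₂ N + 1)`. -/
def Generates (c e : ℕ) : Prop :=
  ∃ G : ℕ → List (List Bool),
    PolyTimeComputable (encOf ℕ) (encOf (List (List Bool))) G ∧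
    ∀ N, (∀ s ∈ G N, s.length = N) ∧
      ∀ (n r : ℕ) (A : Set (Fin n → Bool)), n ≤ N → r ^ (e + 1) ≤ (Nat.log 2 N + 2) ^ e →
        Certified (c * (Nat.log 2 N + 1)) r A →
          prob A - 1 / (Nat.log 2 N + 2 : ℕ) ^ c ≤ frac (G N) A

/-- The language `L` is decided, with gap `1 / (log₂ |x| + 2) ^ c`, by a randomized polynomial-time
algorithm with few coins as witnesses. `M (x, y)` is the answer on the input `x` with the coin string
`y` of length `m x`; `m`, `M` and `g` are computable in polynomial time. For each `x` there is a
certified set `A` of coin strings with the following property. If `x ∈ L`, then `M (x, y) = true` for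
all `y ∈ A`, and the probability of `A` is at least `(g x + 1) / (log₂ |x| + 2) ^ c`. If `x ∉ L`, then
`M (x, y) = false` for all `y ∈ A`, and the probability of `A` is at least
`1 - g x / (log₂ |x| + 2) ^ c`. -/
def Decided (c e : ℕ) (L : Set (List Bool)) : Prop :=
  ∃ (m : List Bool → ℕ) (M : List Bool × List Bool → Bool) (g : List Bool → ℕ),
    PolyTimeComputable (encOf (List Bool)) (encOf ℕ) m ∧
    PolyTimeComputable (encOf (List Bool × List Bool)) (encOf Bool) M ∧
    PolyTimeComputable (encOf (List Bool)) (encOf ℕ) g ∧
    ∀ x, ∃ (r : ℕ) (A : Set (Fin (m x) → Bool)), r ^ (e + 1) ≤ (Nat.log 2 x.length + 2) ^ e ∧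
      Certified (c * (Nat.log 2 x.length + 1)) r A ∧
      (x ∈ L → (∀ y ∈ A, M (x, List.ofFn y) = true) ∧
        ((g x : ℝ) + 1) / (Nat.log 2 x.length + 2 : ℕ) ^ c ≤ prob A) ∧
      (x ∉ L → (∀ y ∈ A, M (x, List.ofFn y) = false) ∧
        1 - (g x : ℝ) / (Nat.log 2 x.length + 2 : ℕ) ^ c ≤ prob A)

end Pool.Agent.Helper78.CG
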