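import Pool.Agent.Helper78.JT.Final
import Pool.Agent.Helper78.CG.Defs

/-!
# The generator for certified sets: the statements, with proofs in words

All the goals of the projects DT, AO and JT are proved and may be used (`DT/Final.lean`,
`AO/Final.lean`, `JT/Final.lean` and their imports): `tgjS`, `pjaS`, `Pool.Agent.Helper73.JT.pjb`,
`Pool.Agent.Helper27.JT.dgj`, ... The parameters are in `JT/Num.lean`.
-/

namespace Pool.Agent.Helper78.CG

open Pool.Agent.Helper81.CC Pool.Agent.Helper51.ZP Pool.Agent.Helper78.DT Pool.Agent.Helper78.AO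
  Pool.Agent.Helper78.JT
open scoped Classical

/-- The bit `v` of the sample number `i`. -/
def bitj (c a β e L i v : ℕ) : Bool :=
  cnj (fun x u => sb (Pj c L) (Dj a e L)
      (ch (Rj a e L) (dj a e L) (i / Pj c L ^ (tj a e L + 2)) x (e + 1)) u)
    (Pj c L) (Kj c a β e L) (tj a e L) L (dg (Pj c L) i)
    (dg (qj c L * Pj c L)
      (i / Pj c L ^ (tj a e L + 2) / Zl (Rj a e L) (dj a e L) (e + 1))) v

/-- The list of the samples. -/
def gen (c a β e C N : ℕ) : List (List Bool) :=
  (List.range (znj c a β e C N)).map fun i => (List.range N).map (bitj c a β e (lg N) i)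

/-- **CGL.** From certified sets to tuples of lists.

Proof. Let `B` be as in `Certified`. Let `f j` be the list (`Finset.toList`) of all the terms
`T : Tm (Fin n)` with `T.card ≤ w` such that `Sat T x` implies `x ∈ B j` for all `x`, each with the
label `true`. So `Wid w (f j)`. If `x ∈ B j` and `Q` is a witness, then `T = {(v, x v) | v ∈ Q}` is in
the list (`y'` satisfies `T` iff it agrees with `x` on `Q`) and satisfied by `x`. Hence
`ev (f j) x = true` iff `x ∈ B j`, and for every filter `p`, `ev ((f j).filter p) x = true` implies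
`x ∈ B j` (all labels are `true`: `ev g x = true` iff some term of `g` is satisfied). Let
`H v = decide (∀ y', (∀ j, v j = true → y' ∈ B j) → y' ∈ A)` and
`F K t h β = H fun j => ev ((f j).filter (bal K t h)) fun v => β v`; as `cf b v = b v` for `v : Fin n`,
this is a `ListsJ`. (1) `b ∈ A`: for `K = 0` the filter keeps everything (`bal 0 0 h` is always
`true`), so `v j = true` iff `b ∈ B j`, and `H v` holds by the property of `A`. (2) If
`F K t h β = true`, apply `H v` to `y' = fun v => β v`: `v j = true` implies `y' ∈ B j`; so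
`y' ∈ A`. -/
def CglStmt : Prop := ∀ (n w r : ℕ) (A : Set (Fin n → Bool)), Certified w r A →
  ∃ F : ℕ → ℕ → (ℕ → ℕ) → (ℕ → Bool) → Bool, ListsJ n w r F ∧
    (∀ b : Fin n → Bool, b ∈ A → F 0 0 (fun _ => 0) (cf b) = true) ∧
    ∀ (K t : ℕ) (h : ℕ → ℕ) (β : ℕ → Bool), F K t h β = true → (fun v : Fin n => β v) ∈ A

/-- **CGA.** The analysis of the generator. (May assume `CglStmt`; adapt
`Pool.Agent.Helper63.JT.APJ`, where most of the work is done.)

Proof. Choose `a`, `β`, `C`, `L0` as in APJ (PJA and PJB for `c0 + c1`), and let `F` be the functional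
of CGL for `A`. `coins n ((List.range N).map f) = fun v => f v` for `n ≤ N`, so `frac (gen ...) A` is
the number of the `i < znj` with `(fun v : Fin n => bitj ... i v) ∈ A`, divided by `znj`. By DGJ for
the predicate `F' A' θ s' = decide ((fun v : Fin n => cnj (...) ... A' ... s' v) ∈ A)` it is the
probability over `z` (as in TGJ) that the assignment `fun v : Fin n => cnj ... v` is in `A`. By
CGL (2) with `β = cut n (cnj ...)` (`cut n β v = β v` for `v < n`) it is at least the probability that
`F K t h (cut n (cnj ...)) = true`, which by TGJ and PJA is at least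
`pr (F 0 0 (fun _ => 0) (cf b) = true) - 1/(2 L^(c0+c1)) ≥ pr (b ∈ A) - 1/L^c0` (CGL (1)), and
`pr (b ∈ A) = prob A` (`pr_eq_card`). -/
def CgaStmt : Prop := ∀ c1 c0 e : ℕ, ∃ a β C L0 : ℕ, ∀ (n N r : ℕ) (A : Set (Fin n → Bool)),
  n ≤ N → Certified (c1 * lg N) r A → r ^ (e + 1) ≤ lg N ^ e → L0 ≤ lg N →
    prob A - 1 / (lg N : ℝ) ^ c0 ≤ frac (gen (c0 + c1) a β e C N) A

/-- **CGP.** The samples are computed in polynomial time. (Adapt `psdj` and `ptj` in
`Pool.Agent.Helper81.JT.PTJ`; `PolyTime` for `List.map`, `List.range` is in `CxData` or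
`Pool.Agent.Helper87.DT`, ....)

Proof. In `psdj` it is shown that the bits of the samples are in `PolyTime` (the function
`w ↦ cut m (cnj ...)` of `w : (α × ℕ) × ℕ`); the number `znj` of the samples is treated in `ptj`. -/
def CgpStmt : Prop := ∀ c a β e C : ℕ, PolyTime fun N : ℕ => gen c a β e C N

/-- **CGG.** The generator. (May assume `CgaStmt`, `CgpStmt`.)

Proof. CGA with `c1 = c0 = c`: `G N = gen (2 c) a β e C N` if `L0 ≤ lg N`, and otherwise the list of all
`2 ^ N` strings of length `N`, where `N < 2 ^ L0` is bounded: e.g. `(List.range (2 ^ min N (2 ^ L0))).map`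
`fun i => (List.range N).map fun v => decide (i / 2 ^ v % 2 = 1)`; for `n ≤ N` its first `n` bits are
uniformly distributed, so `frac (G N) A = prob A`. (`2 ^ min N M` for a constant `M` is in `PolyTime`
as a function with finitely many values, or as `cpw (2 ^ M) 2 (min N M)`; compare
`Pool.Agent.Helper89.AO.brg`, `Pool.Agent.Helper40.DT.BRU`.) A certified set with the bound `w` is
certified with every larger bound, and `c (log₂ N + 1) ≤ c * lg N`, `lg N = Nat.log 2 N + 2`. All strings
have the length `N`. -/
def CggStmt : Prop := ∀ c e : ℕ, Generates c e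

/-- **CGD.** Languages. (May assume `CggStmt`; adapt `Pool.Agent.Helper55.JT.CKG`,
`Pool.Agent.Helper61.DT.GAP`.)

Proof. Let `L` be in `P`, decided by `f` (`PT_of_inP`). Then `m = 0`, `M (x, y) = f x`, `g = 0`, `r = 0`
and `A = Set.univ` will do (`prob Set.univ = 1`; `1 / (log₂ |x| + 2) ^ c ≤ 1`). Conversely let `m`,
`M`, `g` be given, `N = x.length + m x`, and let `G` be the generator for `c + 2`. Let `k` be the number
of the strings `s` in `G N` with `M (x, (List.range (m x)).map fun v => s.getD v false) = true`; this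
list is `List.ofFn (coins (m x) s)`. Claim: `x ∈ L` iff `(2 g + 1) |G N| < 2 l ^ c k`,
`l = log₂ |x| + 2`. (This is decidable in polynomial time: `inP_of_PT`.) First, `G N` is not empty:
`Set.univ` is certified by `0` sets and `1 - 1/(...)^(c+2) > 0`. With `l' = log₂ N + 2 ≥ l ≥ 2` the error
of the generator is `1/l'^(c+2) ≤ 1/(4 l^c)`; `A` is certified with the bounds for `N` as well, since
`log₂ |x| ≤ log₂ N`. If `x ∈ L`, then `k/|G N| ≥ frac (G N) A ≥ (g+1)/l^c - 1/(4 l^c)`; if `x ∉ L`, then
`1 - k/|G N| ≥ frac (G N) A ≥ 1 - g/l^c - 1/(4 l^c)`. -/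
def CgdStmt : Prop := ∀ (c e : ℕ) (L : Set (List Bool)), InP L ↔ Decided c e L

end Pool.Agent.Helper78.CG
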