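import Mathlib.Logic.Equiv.Fin.Basic
import Pool.Agent.Helper78.CG.Defs

/-!
# Functions of predicates whose values are forced by few coins
-/

namespace Pool.Agent.Helper78.CG

/-- Let `H` be any Boolean function, and let `f j`, `j < r`, be predicates such that each value
`f j y` is forced by at most `w` of the coins of `y`. Then the set of the `y` with
`H (f 0 y, ..., f (r - 1) y) = true` is certified by `2 r` sets with witnesses of size `≤ w`. (The same
holds for its complement, since `¬ H` is another function.) -/
theorem certified_of_forced {n w r : ℕ} (f : Fin r → (Fin n → Bool) → Bool)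
    (H : (Fin r → Bool) → Bool)
    (hf : ∀ j y, ∃ Q : Finset (Fin n), Q.card ≤ w ∧
      ∀ y' : Fin n → Bool, (∀ v ∈ Q, y' v = y v) → f j y' = f j y) :
    Certified w (2 * r) {y | H (fun j => f j y) = true} := by
  refine ⟨fun i => {y | f (finProdFinEquiv.symm i).2 y =
    decide ((finProdFinEquiv.symm i).1 = 1)}, ?_, ?_⟩
  · intro i y hy
    obtain ⟨Q, hQ, h⟩ := hf (finProdFinEquiv.symm i).2 y
    refine ⟨Q, hQ, fun y' h' => ?_⟩
    have h1 := h y' h'
    simp only [Set.mem_setOf_eq] at hy ⊢
    rw [h1, hy]
  · intro y hy y' h
    simp only [Set.mem_setOf_eq] at hy ⊢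
    have key : (fun j => f j y') = fun j => f j y := by
      funext j
      have h1 := h (finProdFinEquiv (if f j y = true then 1 else 0, j))
      simp only [Set.mem_setOf_eq, Equiv.symm_apply_apply] at h1
      by_cases h2 : f j y = true
      · simp only [h2, if_true, decide_true, forall_const] at h1
        rw [h2]
        exact h1
      · have h3 : f j y = false := by simpa using h2
        simp only [h3] at h1
        rw [h3]
        simpa using h1
    rw [key]
    exact hy

end Pool.Agent.Helper78.CG
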