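import Pool.Agent.Helper78.CG.Goals
import Pool.Agent.Helper78.CG.Forced
import Pool.Agent.Helper32.CG.CGL
import Pool.Agent.Helper12.CG.CGA
import Pool.Agent.Helper75.CG.CGP
import Pool.Agent.Helper87.CG.CGG
import Pool.Agent.Helper89.CG.CGD

/-!
# The generator for certified sets: the assembly
-/

namespace Pool.Agent.Helper78.CG

open Pool.Agent.Helper51.ZP

theorem main (c e : ℕ) : Generates c e ∧ ∀ L : Set (List Bool), InP L ↔ Decided c e L := by
  have hG : CggStmt := Pool.Agent.Helper87.CG.cgg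
    (Pool.Agent.Helper12.CG.cga Pool.Agent.Helper32.CG.cgl) Pool.Agent.Helper75.CG.cgp
  exact ⟨hG c e, Pool.Agent.Helper89.CG.cgd hG c e⟩

end Pool.Agent.Helper78.CG
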